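import Pool.Agent.Lib.MP_1b8c51_co.Final

set_option autoImplicit false

namespace Pool.Agent.Results.MP_1b8c51_co.Leading

open Pool.Agent.Lib.MP_1b8c51_co

theorem result (r : ℕ) (hr : 2 ≤ r) : ∃ C : ℝ, ∀ t : ℕ, 1 ≤ t →
    ((r : ℝ) - 1) * r ^ t / 4 - r ^ t / t - C * r ^ t / t ^ 2 ≤ genus (deBruijn r t) ∧
    (genus (deBruijn r t) : ℝ) ≤ ((r : ℝ) - 1) * r ^ t / 4 + C :=
  leading hr

end Pool.Agent.Results.MP_1b8c51_co.Leading
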