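import Pool.Agent.Lib.MP_1b8c51_co.UniD

set_option autoImplicit false

namespace Pool.Agent.Results.MP_1b8c51_co.Uniform

open Pool.Agent.Lib.MP_1b8c51_co

theorem result (ε : ℝ) (hε : 0 < ε) : ∃ N : ℕ, ∀ r t : ℕ, 2 ≤ r → 2 ≤ t → N ≤ r ^ t →
    |(genus (deBruijn r t) : ℝ) -
      (if t = 2 then 5 * (r : ℝ) ^ 3 / 24 else ((r : ℝ) - 1) * r ^ t / 4)| ≤
      ε * (if t = 2 then 5 * (r : ℝ) ^ 3 / 24 else ((r : ℝ) - 1) * r ^ t / 4) :=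
  uniform hε

end Pool.Agent.Results.MP_1b8c51_co.Uniform
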