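import Pool.Agent.Lib.MP_1b8c51_co.RYBig
import Pool.Agent.Lib.MP_1b8c51_co.RYS2
import Pool.Agent.Lib.MP_1b8c51_co.RYS3
import Pool.Agent.Lib.MP_1b8c51_co.RYS4
import Pool.Agent.Lib.MP_1b8c51_co.RYS5
import Pool.Agent.Lib.MP_1b8c51_co.RYS6
import Pool.Agent.Lib.MP_1b8c51_co.RYS7
import Pool.Agent.Lib.MP_1b8c51_co.RYS8
import Pool.Agent.Lib.MP_1b8c51_co.RYS9
import Pool.Agent.Lib.MP_1b8c51_co.RYS10
import Pool.Agent.Lib.MP_1b8c51_co.RYS11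
import Pool.Agent.Lib.MP_1b8c51_co.RYS12
import Pool.Agent.Lib.MP_1b8c51_co.RYS13
import Pool.Agent.Lib.MP_1b8c51_co.RYS14
import Pool.Agent.Lib.MP_1b8c51_co.RYS15
import Pool.Agent.Lib.MP_1b8c51_co.RYS16
import Pool.Agent.Lib.MP_1b8c51_co.RYS17
import Pool.Agent.Lib.MP_1b8c51_co.RYS18
import Pool.Agent.Lib.MP_1b8c51_co.RYS19
import Pool.Agent.Lib.MP_1b8c51_co.RYS20
import Pool.Agent.Lib.MP_1b8c51_co.RYS22
import Pool.Agent.Lib.MP_1b8c51_co.RYS23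
import Pool.Agent.Lib.MP_1b8c51_co.RYS24
import Pool.Agent.Lib.MP_1b8c51_co.RYS26
import Pool.Agent.Lib.MP_1b8c51_co.RYS28

set_option autoImplicit false

namespace Pool.Agent.Results.MP_1b8c51_co.WordsOfLengthTwo

open Pool.Agent.Lib.MP_1b8c51_co Pool.Agent.Lib.MP_1b8c51_co.RY

theorem result (r : ℕ) (hr : 2 ≤ r) :
    (genus (deBruijn r 2) : ℤ) = ⌈((r : ℚ) - 3) * (r + 1) * (5 * r - 8) / 24⌉ := by
  refine to_ceil r _ hr ?_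
  by_cases h : 29 ≤ r ∨ r = 21 ∨ r = 25 ∨ r = 27
  · exact g_big r h
  rcases (show r = 2 ∨ r = 3 ∨ r = 4 ∨ r = 5 ∨ r = 6 ∨ r = 7 ∨ r = 8 ∨ r = 9 ∨ r = 10 ∨ r = 11 ∨ r = 12 ∨ r = 13 ∨ r = 14 ∨ r = 15 ∨ r = 16 ∨ r = 17 ∨ r = 18 ∨ r = 19 ∨ r = 20 ∨ r = 22 ∨ r = 23 ∨ r = 24 ∨ r = 26 ∨ r = 28 by omega) with
    rfl | rfl | rfl | rfl | rfl | rfl | rfl | rfl | rfl | rfl | rfl | rfl | rfl | rfl | rfl | rfl | rfl | rfl | rfl | rfl | rfl | rfl | rfl | rfl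
  · exact g_2
  · exact g_3
  · exact g_4
  · exact g_5
  · exact g_6
  · exact g_7
  · exact g_8
  · exact g_9
  · exact g_10
  · exact g_11
  · exact g_12
  · exact g_13
  · exact g_14
  · exact g_15
  · exact g_16
  · exact g_17
  · exact g_18
  · exact g_19
  · exact g_20
  · exact g_22
  · exact g_23
  · exact g_24
  · exact g_26
  · exact g_28

end Pool.Agent.Results.MP_1b8c51_co.WordsOfLengthTwo
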